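import Pool.Agent.Helper2.MON.Defs
import Pool.Agent.Helper14.GH.HW5

/-!
Project MON (MP_b8862a_ag), block MON-2: a rational Hodge substructure of the Lie algebra of isometries is stable
under brackets with `LH`.
-/

set_option linter.unusedSectionVars false

open Matrix

namespace MH

variable {n : Type*} [Fintype n] [DecidableEq n]

section op38

variable {R : Type*} [CommRing R]

/-- the bracket with a matrix -/
def ad38 (X : Matrix n n R) : Matrix n n R →ₗ[R] Matrix n n R where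
  toFun Z := X * Z - Z * X
  map_add' := by
    intro a b
    rw [mul_add, add_mul]
    abel
  map_smul' := by
    intro c a
    rw [mul_smul_comm, smul_mul_assoc, ← smul_sub]
    rfl

/-- the tensor of type (2, 2) of a linear operator on the matrices -/
def tE38 (π : Matrix n n R →ₗ[R] Matrix n n R) : (Fin 2 ⊕ Fin 2 → n) → R :=
  fun i => π (Matrix.single (i (Sum.inr 1)) (i (Sum.inl 1)) 1) (i (Sum.inl 0)) (i (Sum.inr 0))

theorem tE38_eq (π : Matrix n n R →ₗ[R] Matrix n n R) :
    tE38 π = ∑ k, ∑ l, t22 (π (Matrix.single l k 1)) (Matrix.single k l 1) := by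
  funext i
  rw [Finset.sum_apply, Finset.sum_eq_single (i (Sum.inl 1))]
  · rw [Finset.sum_apply, Finset.sum_eq_single (i (Sum.inr 1))]
    · simp [tE38, t22]
    · intro l _ hl
      simp [t22, hl]
    · intro h
      exact absurd (Finset.mem_univ _) h
  · intro k _ hk
    rw [Finset.sum_apply]
    refine Finset.sum_eq_zero fun l _ => ?_
    simp [t22, hk]
  · intro h
    exact absurd (Finset.mem_univ _) h

theorem tE38_inj {π : Matrix n n R →ₗ[R] Matrix n n R} (h : tE38 π = 0) : π = 0 := by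
  refine Matrix.ext_linearMap _ fun a b => ?_
  refine LinearMap.ext_ring ?_
  ext i j
  have h1 := congrFun h (Sum.elim ![i, b] ![j, a])
  simpa [tE38] using h1

/-- the value of an operator in terms of its matrix -/
theorem op_apply38 (π : Matrix n n R →ₗ[R] Matrix n n R) (Z : Matrix n n R) (a b : n) :
    π Z a b = ∑ k, ∑ l, π (Matrix.single l k 1) a b * Z l k := by
  conv_lhs => rw [Matrix.matrix_eq_sum_single Z]
  rw [map_sum, Matrix.sum_apply, Finset.sum_comm]
  refine Finset.sum_congr rfl fun l _ => ?_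
  rw [map_sum, Matrix.sum_apply]
  refine Finset.sum_congr rfl fun k _ => ?_
  have e1 : Matrix.single l k (Z l k) = Z l k • Matrix.single l k (1 : R) := by
    rw [Matrix.smul_single, smul_eq_mul, mul_one]
  rw [e1, map_smul, Matrix.smul_apply, smul_eq_mul, mul_comm]

/-- the derivation on the tensor of an operator is the bracket of operators -/
theorem dL_tE38 (π : Matrix n n R →ₗ[R] Matrix n n R) (X : Matrix n n R) :
    dL 2 2 (tE38 π) X = tE38 (ad38 X ∘ₗ π - π ∘ₗ ad38 X) := by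
  have hs : dL 2 2 (tE38 π) X = ∑ k, ∑ l, dL 2 2 (t22 (π (Matrix.single l k 1)) (Matrix.single k l 1)) X := by
    have h1 : ∀ t : (Fin 2 ⊕ Fin 2 → n) → R, dL 2 2 t X =
        AddMonoidHom.mk' (fun t => dact (lslot 2 2 X) t) (fun t u => dact_add_right (lslot 2 2 X) t u) t := by
      intro t
      rw [dL_apply]
      rfl
    rw [h1, tE38_eq, map_sum]
    refine Finset.sum_congr rfl fun k _ => ?_
    rw [map_sum]
    refine Finset.sum_congr rfl fun l _ => ?_
    rw [h1]
  rw [hs]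
  have h2 := tE38_eq (ad38 X ∘ₗ π)
  funext i
  have h3 : tE38 (ad38 X ∘ₗ π - π ∘ₗ ad38 X) i = tE38 (ad38 X ∘ₗ π) i - tE38 (π ∘ₗ ad38 X) i := rfl
  rw [h3, h2]
  have h4 : tE38 (π ∘ₗ ad38 X) i = π (X * Matrix.single (i (Sum.inr 1)) (i (Sum.inl 1)) 1 -
      Matrix.single (i (Sum.inr 1)) (i (Sum.inl 1)) 1 * X) (i (Sum.inl 0)) (i (Sum.inr 0)) := rfl
  rw [h4, op_apply38]
  simp only [dL_t22, Finset.sum_apply, ← Finset.sum_sub_distrib]
  refine Finset.sum_congr rfl fun k _ => Finset.sum_congr rfl fun l _ => ?_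
  have h5 : (ad38 X ∘ₗ π) (Matrix.single l k 1) = X * π (Matrix.single l k 1) - π (Matrix.single l k 1) * X := rfl
  rw [h5, Pi.add_apply]
  have h6 : t22 (π (Matrix.single l k 1)) (X * Matrix.single k l 1 - Matrix.single k l 1 * X) i =
      -(π (Matrix.single l k 1) (i (Sum.inl 0)) (i (Sum.inr 0)) *
        (X * Matrix.single (i (Sum.inr 1)) (i (Sum.inl 1)) 1 -
          Matrix.single (i (Sum.inr 1)) (i (Sum.inl 1)) 1 * X : Matrix n n R) l k) := by
    unfold t22
    rw [← mul_neg]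
    congr 1
    generalize i (Sum.inl 1) = p
    generalize i (Sum.inr 1) = q
    rw [Matrix.sub_apply, Matrix.sub_apply, neg_sub]
    rw [Matrix.mul_apply, Matrix.mul_apply, Matrix.mul_apply, Matrix.mul_apply]
    simp only [Matrix.single_apply, mul_ite, ite_mul, mul_one, one_mul, mul_zero, zero_mul, ite_and]
    simp only [Finset.sum_ite_eq, Finset.sum_ite_irrel, Finset.sum_const_zero, Finset.mem_univ, if_true]
    rw [if_congr (eq_comm : l = q ↔ q = l) rfl rfl, if_congr (eq_comm : k = p ↔ p = k) rfl rfl]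
  rw [h6, ← sub_eq_add_neg]

end op38

variable {w : ℤ} {Q : Matrix n n ℚ} {S : Finset ℤ} {P : ℤ → Matrix n n ℂ}

/-- the trace form on the matrices -/
noncomputable def tr38 (n : Type*) [Fintype n] [DecidableEq n] : LinearMap.BilinForm ℂ (Matrix n n ℂ) :=
  LinearMap.mk₂ ℂ (fun X Z => (X * Z).trace)
    (fun X X' Z => by simp only [add_mul, Matrix.trace_add])
    (fun c X Z => by simp only [smul_mul_assoc, Matrix.trace_smul])
    (fun X Z Z' => by simp only [mul_add, Matrix.trace_add])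
    (fun c X Z => by simp only [mul_smul_comm, Matrix.trace_smul])

theorem tr38_apply (X Z : Matrix n n ℂ) : tr38 n X Z = (X * Z).trace := rfl

theorem tr38_refl : (tr38 n).IsRefl := by
  intro X Z h
  rw [tr38_apply] at h ⊢
  rw [Matrix.trace_mul_comm]
  exact h

/-- the bracket is skew for the trace form -/
theorem tr38_skew (Y X Z : Matrix n n ℂ) : tr38 n (ad38 Y X) Z = -tr38 n X (ad38 Y Z) := by
  have h1 : ad38 Y X = Y * X - X * Y := rfl
  have h2 : ad38 Y Z = Y * Z - Z * Y := rfl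
  rw [tr38_apply, tr38_apply, h1, h2, sub_mul, mul_sub, Matrix.trace_sub, Matrix.trace_sub, mul_assoc Y,
    Matrix.trace_mul_comm Y (X * Z), mul_assoc X Y Z, mul_assoc X Z Y]
  ring

namespace IsHW

variable (H : IsHW w Q S P)
include H

/-- an operator on the matrices that commutes with the brackets with the conjugates of `hw` commutes with the
brackets with `LH` -/
theorem comm38 {π : Matrix n n ℂ →ₗ[ℂ] Matrix n n ℂ}
    (h : ∀ σ : ℂ ≃+* ℂ, ad38 ((hw w S P).map σ) ∘ₗ π = π ∘ₗ ad38 ((hw w S P).map σ)) {Y : Matrix n n ℂ}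
    (hY : Y ∈ LH Q S P) : ad38 Y ∘ₗ π = π ∘ₗ ad38 Y := by
  have h1 : ∀ σ : ℂ ≃+* ℂ, dL 2 2 (tE38 π) ((hw w S P).map σ) = 0 := by
    intro σ
    rw [dL_tE38, h σ, sub_self]
    rfl
  have h2 := H.LH_of_kill (H.kill_p_of_hw h1) hY
  rw [dL_tE38] at h2
  exact sub_eq_zero.1 (tE38_inj h2)

/-- the derivative of the action of the Hodge torus at the identity -/
theorem sub_hw38 {M : Submodule ℂ (Matrix n n ℂ)}
    (h2 : ∀ z : ℂ, z ≠ 0 → ∀ X ∈ M, cochar S P z * X * cochar S P z⁻¹ ∈ M) {X : Matrix n n ℂ} (hX : X ∈ M) :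
    ad38 (hw w S P) X ∈ M := by
  rw [← Subspace.forall_mem_dualAnnihilator_apply_eq_zero_iff]
  intro φ hφ
  rw [Submodule.mem_dualAnnihilator] at hφ
  have hsum : X = ∑ p ∈ S, ∑ q ∈ S, P p * X * P q := by
    have h1 : X = (∑ p ∈ S, P p) * X * ∑ q ∈ S, P q := by rw [H.sum, one_mul, mul_one]
    conv_lhs => rw [h1]
    rw [Finset.sum_mul, Finset.sum_mul]
    exact Finset.sum_congr rfl fun p _ => by rw [Finset.mul_sum]
  have hg : ∀ z : ℂ, z ≠ 0 → ∑ p ∈ S, ∑ q ∈ S, z ^ (p - q) * φ (P p * X * P q) = 0 := by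
    intro z hz
    rw [← hφ _ (h2 z hz X hX)]
    unfold cochar
    rw [Finset.sum_mul, Finset.sum_mul, map_sum]
    refine Finset.sum_congr rfl fun p _ => ?_
    rw [Finset.mul_sum, map_sum]
    refine Finset.sum_congr rfl fun q _ => ?_
    rw [smul_mul_assoc, smul_mul_smul_comm, map_smul, smul_eq_mul, sub_eq_add_neg, zpow_add₀ hz, _root_.zpow_neg, _root_.inv_zpow]
  have hd : HasDerivAt (fun z : ℂ => ∑ p ∈ S, ∑ q ∈ S, z ^ (p - q) * φ (P p * X * P q))
      (∑ p ∈ S, ∑ q ∈ S, (((p - q : ℤ) : ℂ) * 1 ^ (p - q - 1)) * φ (P p * X * P q)) 1 := by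
    refine HasDerivAt.fun_sum fun p _ => HasDerivAt.fun_sum fun q _ => ?_
    exact (hasDerivAt_zpow (p - q) 1 (Or.inl one_ne_zero)).mul_const _
  have hz : HasDerivAt (fun z : ℂ => ∑ p ∈ S, ∑ q ∈ S, z ^ (p - q) * φ (P p * X * P q)) 0 1 := by
    refine (hasDerivAt_const (1 : ℂ) (0 : ℂ)).congr_of_eventuallyEq ?_
    have h3 : ∀ᶠ z : ℂ in nhds 1, z ≠ 0 := isOpen_ne.eventually_mem one_ne_zero
    filter_upwards [h3] with z hz
    exact hg z hz
  have h0 := hd.unique hz
  have h4 : ad38 (hw w S P) X = ∑ p ∈ S, ∑ q ∈ S, (2 * ((p - q : ℤ) : ℂ)) • (P p * X * P q) := by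
    have h5 : ad38 (hw w S P) X = hw w S P * X - X * hw w S P := rfl
    have h6 : hw w S P * X = ∑ p ∈ S, ∑ q ∈ S, ((2 * p - w : ℤ) : ℂ) • (P p * X * P q) := by
      have h7 : hw w S P * X = hw w S P * X * ∑ q ∈ S, P q := by rw [H.sum, mul_one]
      rw [h7]
      unfold hw
      rw [Finset.sum_mul, Finset.sum_mul]
      refine Finset.sum_congr rfl fun p _ => ?_
      rw [Finset.mul_sum]
      refine Finset.sum_congr rfl fun q _ => ?_
      rw [smul_mul_assoc, smul_mul_assoc]
    have h8 : X * hw w S P = ∑ p ∈ S, ∑ q ∈ S, ((2 * q - w : ℤ) : ℂ) • (P p * X * P q) := by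
      have h7 : X * hw w S P = (∑ q ∈ S, P q) * (X * hw w S P) := by rw [H.sum, one_mul]
      rw [h7]
      unfold hw
      rw [Finset.sum_mul]
      refine Finset.sum_congr rfl fun p _ => ?_
      rw [Finset.mul_sum, Finset.mul_sum]
      refine Finset.sum_congr rfl fun q _ => ?_
      rw [mul_smul_comm, mul_smul_comm, ← mul_assoc]
    rw [h5, h6, h8, ← Finset.sum_sub_distrib]
    refine Finset.sum_congr rfl fun p _ => ?_
    rw [← Finset.sum_sub_distrib]
    refine Finset.sum_congr rfl fun q _ => ?_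
    rw [← sub_smul]
    congr 1
    push_cast
    ring
  rw [h4, map_sum]
  have h9 : ∑ p ∈ S, φ (∑ q ∈ S, (2 * ((p - q : ℤ) : ℂ)) • (P p * X * P q)) =
      2 * ∑ p ∈ S, ∑ q ∈ S, (((p - q : ℤ) : ℂ) * 1 ^ (p - q - 1)) * φ (P p * X * P q) := by
    rw [Finset.mul_sum]
    refine Finset.sum_congr rfl fun p _ => ?_
    rw [map_sum, Finset.mul_sum]
    refine Finset.sum_congr rfl fun q _ => ?_
    rw [map_smul, smul_eq_mul, _root_.one_zpow]
    ring
  rw [h9, h0, mul_zero]

/-- a rational Hodge substructure of the Lie algebra of isometries is stable under brackets with `LH` -/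
theorem ideal_of_sub {M : Submodule ℂ (Matrix n n ℂ)} (h1 : ∀ σ : ℂ ≃+* ℂ, ∀ X ∈ M, X.map σ ∈ M)
    (h2 : ∀ z : ℂ, z ≠ 0 → ∀ X ∈ M, cochar S P z * X * cochar S P z⁻¹ ∈ M)
    (h3 : ∀ X ∈ M, Xᵀ * toC Q + toC Q * X = 0) {Y : Matrix n n ℂ} (hY : Y ∈ LH Q S P) {X : Matrix n n ℂ}
    (hX : X ∈ M) : Y * X - X * Y ∈ M := by
  obtain ⟨B, Bi, Qi, b1, b2, b3, b4, hM⟩ := H.exists_basis
  -- the adjoint preserves `M`
  have hst : ∀ X ∈ M, (Bi * Biᴴ) * Xᴴ * Mw w Q S P ∈ M := by
    intro X hX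
    obtain ⟨κ, hκ⟩ := exists_cc
    have hXc : X.map (starRingEnd ℂ) ∈ M := by
      have e1 : X.map (starRingEnd ℂ) = X.map κ := by
        ext i j
        rw [Matrix.map_apply, Matrix.map_apply, hκ]
      rw [e1]
      exact h1 κ X hX
    have hXt : Xᴴ = (X.map (starRingEnd ℂ))ᵀ := rfl
    rw [hXt]
    generalize X.map (starRingEnd ℂ) = Z at hXc
    have e3 : Zᵀ * toC Q = -(toC Q * Z) := eq_neg_of_add_eq_zero_left (h3 Z hXc)
    have e4 : Bi * Biᴴ * Zᵀ * Mw w Q S P = -(C0 S P * Z * C0 S P) := by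
      unfold Mw
      rw [mul_smul_comm]
      calc Complex.I ^ w • (Bi * Biᴴ * Zᵀ * (toC Q * C0 S P))
          = Complex.I ^ w • ((Bi * Biᴴ) * (Zᵀ * toC Q) * C0 S P) := by simp only [mul_assoc]
        _ = Complex.I ^ w • -(((Bi * Biᴴ) * toC Q) * Z * C0 S P) := by
            rw [e3, mul_neg, neg_mul]
            simp only [mul_assoc]
        _ = _ := by
            rw [H.Mi_Q b1 b2 hM, smul_mul_assoc, smul_mul_assoc, ← smul_neg, smul_smul,
              mul_inv_cancel₀ (I_zpow_ne w), one_smul]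
    rw [e4]
    have e5 := h2 (-1) (by norm_num) Z hXc
    have e6 : cochar S P (-1) = C0 S P := rfl
    have e7 : cochar S P (-1)⁻¹ = C0 S P := by
      unfold cochar C0
      norm_num
    rw [e6, e7] at e5
    exact M.neg_mem e5
  -- the trace form is nondegenerate on `M`
  have hnd : ((tr38 n).restrict M).Nondegenerate := by
    have hr : ((tr38 n).restrict M).IsRefl := fun x y h => tr38_refl _ _ h
    refine (LinearMap.IsRefl.nondegenerate_iff_separatingLeft hr).2 ?_
    intro x hx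
    by_contra hx0
    have hx1 : (x : Matrix n n ℂ) ≠ 0 := fun h => hx0 (Subtype.ext h)
    exact st_pos b1 b2 hM hx1 (hx ⟨_, hst x x.2⟩)
  have hc := LinearMap.BilinForm.isCompl_orthogonal_of_restrict_nondegenerate tr38_refl hnd
  -- both summands are stable under the conjugates of `hw`
  have hMσ : ∀ σ : ℂ ≃+* ℂ, ∀ X ∈ M, ad38 ((hw w S P).map σ) X ∈ M := by
    intro σ X hX
    have e1 := h1 σ _ (H.sub_hw38 h2 (h1 σ.symm X hX))
    have e2 : (ad38 (hw w S P) (X.map σ.symm)).map σ = ad38 ((hw w S P).map σ) X := by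
      have f1 : ad38 (hw w S P) (X.map σ.symm) = hw w S P * X.map σ.symm - X.map σ.symm * hw w S P := rfl
      have f2 : ad38 ((hw w S P).map σ) X = (hw w S P).map σ * X - X * (hw w S P).map σ := rfl
      have f3 : (X.map σ.symm).map σ = X := by
        ext i j
        simp
      have f4 : ∀ A C : Matrix n n ℂ, (A * C).map σ = A.map σ * C.map σ := fun A C =>
        Matrix.map_mul (f := (σ : ℂ →+* ℂ)) (L := A) (M := C)
      rw [f1, f2, Matrix.map_sub _ (map_sub σ), f4, f4, f3]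
    rwa [e2] at e1
  have hNσ : ∀ σ : ℂ ≃+* ℂ, ∀ Z ∈ (tr38 n).orthogonal M, ad38 ((hw w S P).map σ) Z ∈ (tr38 n).orthogonal M := by
    intro σ Z hZ X hX
    have e1 := hZ _ (hMσ σ X hX)
    have e2 := tr38_skew ((hw w S P).map σ) X Z
    have e3 : tr38 n (ad38 ((hw w S P).map σ) X) Z = 0 := e1
    rw [e3] at e2
    exact neg_eq_zero.1 e2.symm
  set π := M.projection ((tr38 n).orthogonal M) hc with hπ
  have hcomm : ∀ σ : ℂ ≃+* ℂ, ad38 ((hw w S P).map σ) ∘ₗ π = π ∘ₗ ad38 ((hw w S P).map σ) := by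
    intro σ
    refine LinearMap.ext fun Z => ?_
    obtain ⟨x, y, hxy, -⟩ := Submodule.existsUnique_add_of_isCompl hc Z
    rw [LinearMap.comp_apply, LinearMap.comp_apply, ← hxy, map_add, map_add, map_add, map_add, hπ]
    rw [Submodule.projection_apply_left, Submodule.projection_apply_of_mem_right hc y.2, map_zero, add_zero,
      Submodule.projection_apply_of_mem_left hc (hMσ σ x x.2),
      Submodule.projection_apply_of_mem_right hc (hNσ σ y y.2), add_zero]
  have h4 := congrArg (fun f => f X) (H.comm38 hcomm hY)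
  have h5 : ad38 Y (π X) = π (ad38 Y X) := h4
  rw [hπ, Submodule.projection_apply_of_mem_left hc hX] at h5
  have h6 : Y * X - X * Y = ad38 Y X := rfl
  rw [h6, h5]
  exact Submodule.projection_apply_mem hc _

end IsHW

end MH
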